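import Mathlib

set_option autoImplicit false

namespace Pool.Agent.Results.MP_ba12ad_co.Eleven

/-- `A` (the arc relation of a digraph) has no loop, no directed 2-cycle and no directed
triangle. -/
def ShortCycleFree {V : Type} (A : V → V → Prop) : Prop :=
  (∀ u, ¬ A u u) ∧ (∀ u v, A u v → ¬ A v u) ∧ ∀ u v w, A u v → A v w → ¬ A w u

/-- The digraph `A` with the arc `u → v` added. -/
def addArc {V : Type} (A : V → V → Prop) (u v : V) : V → V → Prop :=
  fun a b => A a b ∨ (a = u ∧ b = v)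

/-- `A` has no directed cycle of length at most 3, but adding any arc creates one. -/
def IsMaximalFree {V : Type} (A : V → V → Prop) : Prop :=
  ShortCycleFree A ∧ ∀ u v, u ≠ v → ¬ A u v → ¬ ShortCycleFree (addArc A u v)

/-- `X` is a homogeneous set of the digraph `A`. -/
def IsHomogeneous {V : Type} [Fintype V] (A : V → V → Prop) (X : Finset V) : Prop :=
  2 ≤ X.card ∧ X.card < Fintype.card V ∧
    ∀ w, w ∉ X → (∀ x ∈ X, A w x) ∨ (∀ x ∈ X, A x w) ∨ (∀ x ∈ X, ¬ A w x ∧ ¬ A x w)

/-- The circular interval digraph on `ℤ/(3k+1)` with arcs `i → i + j`, `1 ≤ j ≤ k`. -/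
def CircInterval (k : ℕ) : ZMod (3 * k + 1) → ZMod (3 * k + 1) → Prop :=
  fun a b => ∃ j : ℕ, 1 ≤ j ∧ j ≤ k ∧ b = a + j

/-- out-neighbours in the example on 11 vertices -/
def outN : Fin 11 → List (Fin 11) :=
  ![[1, 2, 3], [2, 3, 9], [3, 8, 9], [5, 7, 8], [0, 1, 2], [4, 6, 7, 8, 10], [0, 1, 4],
    [4, 6, 10], [6, 7, 10], [3, 5, 7, 8, 10], [0, 4, 6]]

def D (u v : Fin 11) : Prop := v ∈ outN u

instance : DecidableRel D := fun u v => inferInstanceAs (Decidable (v ∈ outN u))

lemma free : ShortCycleFree D := by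
  unfold ShortCycleFree
  decide +kernel

lemma maximal : IsMaximalFree D := by
  refine ⟨free, ?_⟩
  intro u v huv hD hfree
  have key : ∀ u v : Fin 11, u ≠ v → ¬ D u v → D v u ∨ ∃ w, D v w ∧ D w u := by
    decide +kernel
  rcases key u v huv hD with h | ⟨w, h1, h2⟩
  · exact hfree.2.1 u v (Or.inr ⟨rfl, rfl⟩) (Or.inl h)
  · exact hfree.2.2 u v w (Or.inr ⟨rfl, rfl⟩) (Or.inl h1) (Or.inl h2)

set_option maxRecDepth 100000 in
lemma noHomog : ∀ X : Finset (Fin 11), ¬ IsHomogeneous D X := by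
  unfold IsHomogeneous
  decide +kernel

lemma outdeg : ∀ v, 4 * Fintype.card (Fin 11) < 15 * {w | D v w}.ncard := by
  intro v
  rw [Set.ncard_eq_toFinset_card']
  revert v
  decide +kernel

/-- There is a maximal digraph without directed cycles of length at most 3, without homogeneous
sets and with minimum outdegree greater than `4 n / 15`, that is not a circular interval
digraph. -/
theorem result : ∃ (V : Type) (_ : Fintype V) (A : V → V → Prop),
    IsMaximalFree A ∧ (∀ X : Finset V, ¬ IsHomogeneous A X) ∧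
    (∀ v, 4 * Fintype.card V < 15 * {w | A v w}.ncard) ∧
    ∀ k : ℕ, 1 ≤ k → ¬ ∃ f : V ≃ ZMod (3 * k + 1), ∀ a b, A a b ↔ CircInterval k (f a) (f b) := by
  refine ⟨Fin 11, inferInstance, D, maximal, noHomog, outdeg, ?_⟩
  rintro k hk ⟨f, -⟩
  have h := Nat.card_congr f
  rw [Nat.card_zmod, Nat.card_eq_fintype_card, Fintype.card_fin] at h
  omega

end Pool.Agent.Results.MP_ba12ad_co.Eleven
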